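import Pool.Agent.Helper29.SH.Goals

/-! Project SH (MP_0a002a_al), packet SH-C1A (helper79). -/

set_option autoImplicit false

namespace Pool.Agent.Helper79.SH

open Subgroup Pool.H83Shunkov Pool.Agent.Helper29.SH

/-- one step: a subgroup `D` of `Q`, normalised by `e`, in which only `1` commutes with `e`, is trivial -/
lemma step {G : Type} [Group G] (Q D : Subgroup G) (q : ℕ) (hq : q.Prime)
    (hp : ∀ x ∈ Q, ∃ n : ℕ, x ^ q ^ n = 1)
    (hfin : ∀ x ∈ Q, ∀ g ∈ Q, orderOf x = q → ((Pr x g : Subgroup G) : Set G).Finite)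
    (hDQ : D ≤ Q) (e : G) (heQ : e ∈ Q) (heq : orderOf e = q)
    (hn : ∀ x ∈ zpowers e, ∀ d ∈ D, x * d * x⁻¹ ∈ D)
    (hfix : ∀ d ∈ D, d * e = e * d → d = 1) : D = ⊥ := by
  rw [eq_bot_iff]
  intro g hg
  rw [mem_bot]
  have hF : ((Pr e g : Subgroup G) : Set G).Finite := hfin e heQ g (hDQ hg) heq
  have hePr : e ∈ Pr e g := subset_closure (by simp)
  have hgPr : g⁻¹ * e * g ∈ Pr e g := subset_closure (by simp)
  have hA : Pr e g ⊓ D = ⊥ := by
    by_contra hne
    have hfinA : ((Pr e g ⊓ D : Subgroup G) : Set G).Finite :=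
      hF.subset (fun x hx => (mem_inf.1 hx).1)
    have hfA : Finite (Pr e g ⊓ D : Subgroup G) := hfinA.to_subtype
    have hPA : IsPGroup q (Pr e g ⊓ D : Subgroup G) := by
      intro x
      obtain ⟨n, hn'⟩ := hp x.1 (hDQ (mem_inf.1 x.2).2)
      exact ⟨n, Subtype.ext (by simpa using hn')⟩
    have hfact : Fact q.Prime := ⟨hq⟩
    obtain ⟨k, hk⟩ := IsPGroup.iff_card.1 hPA
    have hcard : 1 < Nat.card (Pr e g ⊓ D : Subgroup G) :=
      (Pr e g ⊓ D).one_lt_card_iff_ne_bot.2 hne
    have hdvd : q ∣ Nat.card (Pr e g ⊓ D : Subgroup G) := by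
      rw [hk]
      rw [hk] at hcard
      have : k ≠ 0 := by
        rintro rfl
        simp at hcard
      exact dvd_pow_self q this
    have hPE : IsPGroup q (zpowers e) := by
      intro x
      have hx : x.1 ∈ Q := (zpowers_le.2 heQ) x.2
      obtain ⟨n, hn'⟩ := hp x.1 hx
      exact ⟨n, Subtype.ext (by simpa using hn')⟩
    let act : MulAction (zpowers e) (Pr e g ⊓ D : Subgroup G) :=
      { smul := fun x a => ⟨x.1 * a.1 * x.1⁻¹, mem_inf.2
          ⟨mul_mem (mul_mem ((zpowers_le.2 hePr) x.2) (mem_inf.1 a.2).1)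
            (inv_mem ((zpowers_le.2 hePr) x.2)), hn x.1 x.2 a.1 (mem_inf.1 a.2).2⟩⟩
        one_smul := fun a => Subtype.ext (by
          change (1 : G) * a.1 * (1 : G)⁻¹ = a.1
          simp)
        mul_smul := fun x y a => Subtype.ext (by
          change (x.1 * y.1) * a.1 * (x.1 * y.1)⁻¹ = x.1 * (y.1 * a.1 * y.1⁻¹) * x.1⁻¹
          group) }
    have h1 : (1 : (Pr e g ⊓ D : Subgroup G)) ∈
        MulAction.fixedPoints (zpowers e) (Pr e g ⊓ D : Subgroup G) := by
      intro x
      apply Subtype.ext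
      change x.1 * (1 : G) * x.1⁻¹ = 1
      simp
    obtain ⟨b, hb, hb1⟩ := hPE.exists_fixed_point_of_prime_dvd_card_of_fixed_point
      (Pr e g ⊓ D : Subgroup G) hdvd h1
    apply hb1
    have hbe := hb ⟨e, mem_zpowers e⟩
    have hbe' : e * b.1 * e⁻¹ = b.1 := congrArg Subtype.val hbe
    have : b.1 = 1 := by
      apply hfix b.1 (mem_inf.1 b.2).2
      calc b.1 * e = (e * b.1 * e⁻¹) * e := by rw [hbe']
        _ = e * b.1 := by group
    exact (Subtype.ext this).symm
  have hmem : e⁻¹ * (g⁻¹ * e * g) ∈ Pr e g ⊓ D := by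
    refine mem_inf.2 ⟨mul_mem (inv_mem hePr) hgPr, ?_⟩
    have := hn e⁻¹ (inv_mem (mem_zpowers e)) g⁻¹ (inv_mem hg)
    have h2 := mul_mem this hg
    have h3 : e⁻¹ * g⁻¹ * e⁻¹⁻¹ * g = e⁻¹ * (g⁻¹ * e * g) := by group
    rwa [h3] at h2
  rw [hA, mem_bot] at hmem
  apply hfix g hg
  have h4 : g⁻¹ * e * g = e := by
    have := congrArg (fun t => e * t) hmem
    simpa using this
  calc g * e = g * (g⁻¹ * e * g) := by rw [h4]
    _ = e * g := by group

theorem t_C1A : S_C1A := by
  intro G _ Q N V _ q hq hp hfin hVQ hVf hVq hcomm hne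
  have key : ∀ S : Finset G, (S : Set G) ⊆ V →
      ∃ z ∈ Q ⊓ N, z ≠ 1 ∧ ∀ v ∈ S, z * v = v * z := by
    intro S
    classical
    induction S using Finset.induction_on with
    | empty =>
      intro _
      obtain ⟨z, hz⟩ := (Subgroup.ne_bot_iff_exists_ne_one).1 hne
      exact ⟨z.1, z.2, fun h => hz (Subtype.ext h), by simp⟩
    | insert e S _ ih =>
      intro hS
      have hSV : (S : Set G) ⊆ V := fun x hx => hS (by simp [hx])
      have heV : e ∈ V := hS (by simp)
      obtain ⟨z, hz, hz1, hzS⟩ := ih hSV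
      by_contra hcon
      push Not at hcon
      have he1 : e ≠ 1 := by
        rintro rfl
        obtain ⟨v, hv, hv'⟩ := hcon z hz hz1
        rcases Finset.mem_insert.1 hv with rfl | hv
        · exact hv' (by simp)
        · exact hv' (hzS v hv)
      have hfact : Fact q.Prime := ⟨hq⟩
      have heq : orderOf e = q := orderOf_eq_prime (hVq e heV) he1
      let D : Subgroup G := Q ⊓ N ⊓ centralizer (S : Set G)
      have hzD : z ∈ D := by
        refine mem_inf.2 ⟨hz, ?_⟩
        rw [mem_centralizer_iff]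
        intro v hv
        exact (hzS v (by simpa using hv)).symm
      have hDbot : D = ⊥ := by
        refine step Q D q hq hp hfin (fun x hx => (mem_inf.1 (mem_inf.1 hx).1).1) e (hVQ heV)
          heq ?_ ?_
        · intro x hx d hd
          have hxV : x ∈ V := (zpowers_le.2 heV) hx
          obtain ⟨h1, h2⟩ := mem_inf.1 hd
          obtain ⟨h3, h4⟩ := mem_inf.1 h1
          refine mem_inf.2 ⟨mem_inf.2 ⟨mul_mem (mul_mem (hVQ hxV) h3) (inv_mem (hVQ hxV)), ?_⟩, ?_⟩
          · exact (inferInstance : N.Normal).conj_mem d h4 x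
          · rw [mem_centralizer_iff] at h2 ⊢
            intro v hv
            have hvV : v ∈ V := hSV hv
            have a1 : v * x = x * v := hcomm v hvV x hxV
            have a2 : v * d = d * v := h2 v hv
            have a3 : v * x⁻¹ = x⁻¹ * v := hcomm v hvV x⁻¹ (inv_mem hxV)
            calc v * (x * d * x⁻¹) = (v * x) * d * x⁻¹ := by group
              _ = x * (v * d) * x⁻¹ := by rw [a1]; group
              _ = x * d * (v * x⁻¹) := by rw [a2]; group
              _ = x * d * x⁻¹ * v := by rw [a3]; group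
        · intro d hd hde
          by_contra hd1
          obtain ⟨h1, h2⟩ := mem_inf.1 hd
          obtain ⟨v, hv, hv'⟩ := hcon d h1 hd1
          rcases Finset.mem_insert.1 hv with rfl | hv
          · exact hv' hde
          · rw [mem_centralizer_iff] at h2
            exact hv' (h2 v (by simpa using hv)).symm
      rw [hDbot, mem_bot] at hzD
      exact hz1 hzD
  obtain ⟨z, hz, hz1, hzV⟩ := key hVf.toFinset (by simp)
  exact ⟨z, hz, hz1, fun v hv => hzV v (by simpa using hv)⟩

end Pool.Agent.Helper79.SH
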